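import Mathlib

/-!
# MP_f10000_nt (SOB): majorisation for products of `1 - 1 / x`
-/

set_option autoImplicit false

namespace Pool.Agent.SOB

open Finset

/-- The tangent inequality for `t ↦ log (1 - exp (-t))`. -/
theorem tang (x y : ℝ) (hx : 1 < x) (hy : 1 < y) :
    (Real.log x - Real.log y) / (x - 1) ≤ Real.log (1 - 1 / x) - Real.log (1 - 1 / y) := by
  have hx0 : 0 < x := by linarith
  have hy0 : 0 < y := by linarith
  have hx1 : 0 < x - 1 := by linarith
  have hy1 : 0 < y - 1 := by linarith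
  have h := Real.geom_mean_le_arith_mean2_weighted (w₁ := 1 / x) (w₂ := (x - 1) / x) (p₁ := 1)
    (p₂ := (y - 1) / (x - 1)) (by positivity) (by positivity) (by norm_num) (by positivity)
    (by field_simp; ring)
  rw [Real.one_rpow, one_mul] at h
  have h2 : 1 / x * 1 + (x - 1) / x * ((y - 1) / (x - 1)) = y / x := by
    field_simp
    ring
  rw [h2] at h
  have h3 : (x - 1) / x * Real.log ((y - 1) / (x - 1)) ≤ Real.log (y / x) := by
    rw [← Real.log_rpow (by positivity)]
    exact Real.log_le_log (by positivity) h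
  rw [Real.log_div (by positivity) (by positivity), Real.log_div (by positivity) (by positivity)]
    at h3
  have e1 : (1 : ℝ) - 1 / x = (x - 1) / x := by field_simp
  have e2 : (1 : ℝ) - 1 / y = (y - 1) / y := by field_simp
  rw [e1, e2, Real.log_div (by positivity) (by positivity),
    Real.log_div (by positivity) (by positivity), div_le_iff₀ hx1]
  have h4 : (x - 1) * (Real.log (y - 1) - Real.log (x - 1)) ≤ x * (Real.log y - Real.log x) := by
    have := mul_le_mul_of_nonneg_left h3 hx0.le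
    have e3 : x * ((x - 1) / x * (Real.log (y - 1) - Real.log (x - 1))) =
        (x - 1) * (Real.log (y - 1) - Real.log (x - 1)) := by
      field_simp
    linarith
  nlinarith

theorem one_sub_pos {x : ℝ} (hx : 1 < x) : 0 < 1 - 1 / x := by
  have : 1 / x < 1 := by
    rw [div_lt_one (by linarith)]
    exact hx
  linarith

theorem prod_one_sub_pos (x : ℕ → ℝ) (s : Finset ℕ) (hx : ∀ i ∈ s, 1 < x i) :
    0 < ∏ i ∈ s, (1 - 1 / x i) := prod_pos fun i hi => one_sub_pos (hx i hi)

/-- Majorisation. -/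
theorem maj (x y : ℕ → ℝ) (r : ℕ) (hx : ∀ i < r, 1 < x i) (hy : ∀ i < r, 1 < y i)
    (hm : ∀ i j, i ≤ j → j < r → x i ≤ x j)
    (hd : ∀ j ≤ r, ∏ i ∈ range j, y i ≤ ∏ i ∈ range j, x i) :
    ∏ i ∈ range r, (1 - 1 / y i) ≤ ∏ i ∈ range r, (1 - 1 / x i) := by
  rcases Nat.eq_zero_or_pos r with h0 | h0
  · subst h0; simp
  have hL : ∀ j ≤ r, 0 ≤ ∑ i ∈ range j, (Real.log (x i) - Real.log (y i)) := by
    intro j hj
    rw [sum_sub_distrib, ← Real.log_prod, ← Real.log_prod, sub_nonneg]
    · refine Real.log_le_log (prod_pos fun i hi => ?_) (hd j hj)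
      have := hy i ((mem_range.mp hi).trans_le hj)
      linarith
    · intro i hi
      have := hy i ((mem_range.mp hi).trans_le hj)
      linarith
    · intro i hi
      have := hx i ((mem_range.mp hi).trans_le hj)
      linarith
  have key : ∀ j, j < r → (∑ i ∈ range (j + 1), (Real.log (x i) - Real.log (y i))) / (x j - 1) ≤
      ∑ i ∈ range (j + 1), (Real.log (1 - 1 / x i) - Real.log (1 - 1 / y i)) := by
    intro j
    induction j with
    | zero =>
      intro hj
      simp only [zero_add, sum_range_one]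
      exact tang _ _ (hx 0 hj) (hy 0 hj)
    | succ j ih =>
      intro hj
      rw [sum_range_succ _ (j + 1), sum_range_succ _ (j + 1), add_div]
      refine add_le_add ?_ (tang _ _ (hx _ hj) (hy _ hj))
      refine le_trans ?_ (ih (by omega))
      have h1 := hx j (by omega)
      have h2 := hm j (j + 1) (by omega) hj
      exact div_le_div_of_nonneg_left (hL (j + 1) (by omega)) (by linarith) (by linarith)
  have h1 := key (r - 1) (by omega)
  rw [Nat.sub_add_cancel h0] at h1
  have h2 : 0 ≤ (∑ i ∈ range r, (Real.log (x i) - Real.log (y i))) / (x (r - 1) - 1) := by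
    have := hx (r - 1) (by omega)
    exact div_nonneg (hL r le_rfl) (by linarith)
  have h3 := h2.trans h1
  rw [sum_sub_distrib, ← Real.log_prod, ← Real.log_prod, sub_nonneg] at h3
  · exact (Real.log_le_log_iff (prod_one_sub_pos y _ fun i hi => hy i (mem_range.mp hi))
      (prod_one_sub_pos x _ fun i hi => hx i (mem_range.mp hi))).mp h3
  · intro i hi
    exact (one_sub_pos (hy i (mem_range.mp hi))).ne'
  · intro i hi
    exact (one_sub_pos (hx i (mem_range.mp hi))).ne'

/-- The comparison of two products, given the comparison of the heads. -/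
theorem core (K K' : ℝ) (hK : 0 ≤ K) (hKK : K ≤ K') (x y : ℕ → ℝ) (r : ℕ)
    (hx : ∀ i < r, 1 < x i) (hy : ∀ i < r, 1 < y i) (hm : ∀ i j, i ≤ j → j < r → x i ≤ x j)
    (hh : ∀ l < r, K * ∏ i ∈ range l, (1 - 1 / y i) ≤ K' * ∏ i ∈ range l, (1 - 1 / x i))
    (hX : ∏ i ∈ range r, y i ≤ ∏ i ∈ range r, x i) :
    K * ∏ i ∈ range r, (1 - 1 / y i) ≤ K' * ∏ i ∈ range r, (1 - 1 / x i) := by
  classical
  rcases Nat.eq_zero_or_pos r with h0 | h0
  · subst h0; simpa using hKK
  have hXp : ∀ j ≤ r, 0 < ∏ i ∈ range j, x i := fun j hj => prod_pos fun i hi => by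
    have := hx i ((mem_range.mp hi).trans_le hj)
    linarith
  have hYp : ∀ j ≤ r, 0 < ∏ i ∈ range j, y i := fun j hj => prod_pos fun i hi => by
    have := hy i ((mem_range.mp hi).trans_le hj)
    linarith
  set X : ℕ → ℝ := fun j => ∏ i ∈ range j, x i with hXd
  set Y : ℕ → ℝ := fun j => ∏ i ∈ range j, y i with hYd
  obtain ⟨l, hl, hQ, hmax⟩ : ∃ l < r, Y r * X l ≤ X r * Y l ∧
      ∀ j, l < j → j < r → X r * Y j < Y r * X j := by
    have hP0 : Y r * X 0 ≤ X r * Y 0 := by
      simp only [hXd, hYd, prod_range_zero, mul_one] at hX ⊢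
      exact hX
    refine ⟨Nat.findGreatest (fun l => Y r * X l ≤ X r * Y l) (r - 1), ?_, ?_, ?_⟩
    · have := Nat.findGreatest_le (P := fun l => Y r * X l ≤ X r * Y l) (r - 1)
      omega
    · exact Nat.findGreatest_spec (P := fun l => Y r * X l ≤ X r * Y l) (Nat.zero_le _) hP0
    · intro j h1 h2
      by_contra hcon
      push Not at hcon
      have := Nat.le_findGreatest (P := fun l => Y r * X l ≤ X r * Y l) (n := r - 1) (m := j)
        (by omega) hcon
      omega
  have hdom : ∀ j, l ≤ j → j ≤ r → Y j * X l ≤ X j * Y l := by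
    intro j h1 h2
    rcases h1.eq_or_lt with h3 | h3
    · subst h3; rw [mul_comm]
    rcases h2.eq_or_lt with h4 | h4
    · subst h4; exact hQ
    have h5 := hmax j h3 h4
    have hXr : 0 < X r := hXp r le_rfl
    have hYr : 0 < Y r := hYp r le_rfl
    have hXl : 0 < X l := hXp l hl.le
    have hXj : 0 < X j := hXp j h2
    have h6 : X r * (Y j * X l) ≤ X r * (X j * Y l) := by
      calc X r * (Y j * X l) = (X r * Y j) * X l := by ring
        _ ≤ (Y r * X j) * X l := mul_le_mul_of_nonneg_right h5.le hXl.le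
        _ = (Y r * X l) * X j := by ring
        _ ≤ (X r * Y l) * X j := mul_le_mul_of_nonneg_right hQ hXj.le
        _ = X r * (X j * Y l) := by ring
    exact le_of_mul_le_mul_left h6 hXr
  have hsplit : ∀ (f : ℕ → ℝ) (j : ℕ), ∏ i ∈ range (l + j), f i =
      (∏ i ∈ range l, f i) * ∏ i ∈ range j, f (l + i) := fun f j => prod_range_add f l j
  have htail := maj (fun i => x (l + i)) (fun i => y (l + i)) (r - l)
    (fun i hi => hx _ (by omega)) (fun i hi => hy _ (by omega))
    (fun i j hij hj => hm _ _ (by omega) (by omega)) (by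
      intro j hj
      have h1 := hdom (l + j) (by omega) (by omega)
      simp only [hXd, hYd] at h1
      rw [hsplit, hsplit] at h1
      have hXl : 0 < ∏ i ∈ range l, x i := hXp l hl.le
      have hYl : 0 < ∏ i ∈ range l, y i := hYp l hl.le
      have h2 : (∏ i ∈ range l, x i) * (∏ i ∈ range l, y i) * ∏ i ∈ range j, y (l + i) ≤
          (∏ i ∈ range l, x i) * (∏ i ∈ range l, y i) * ∏ i ∈ range j, x (l + i) := by
        nlinarith [h1]
      exact le_of_mul_le_mul_left h2 (mul_pos hXl hYl))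
  have hr : l + (r - l) = r := by omega
  have e1 := hsplit (fun i => 1 - 1 / y i) (r - l)
  have e2 := hsplit (fun i => 1 - 1 / x i) (r - l)
  rw [hr] at e1 e2
  rw [e1, e2, ← mul_assoc, ← mul_assoc]
  refine mul_le_mul (hh l hl) htail ?_ ?_
  · exact (prod_pos fun i hi => one_sub_pos (hy _ (by have := mem_range.mp hi; omega))).le
  · exact mul_nonneg (hK.trans hKK) (prod_one_sub_pos x _ fun i hi => hx i
      ((mem_range.mp hi).trans hl)).le

/-- Products greater than one are far from one. -/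
theorem head (K K' : ℝ) (hK : 0 ≤ K) (hKK : K ≤ K') (x y : ℕ → ℝ) (r : ℕ)
    (hx : ∀ i < r, 1 < x i) (hy : ∀ i, 1 < y i) (hm : ∀ i j, i ≤ j → j < r → x i ≤ x j)
    (hyK : ∀ j, 1 ≤ j → K * ∏ i ∈ range j, (1 - 1 / y i) ≤ 1 + 1 / ∏ i ∈ range j, y i)
    (hxK : ∀ j, 1 ≤ j → j ≤ r → 1 + 1 / ∏ i ∈ range j, x i ≤
      K' * ∏ i ∈ range j, (1 - 1 / x i)) :
    ∀ j ≤ r, K * ∏ i ∈ range j, (1 - 1 / y i) ≤ K' * ∏ i ∈ range j, (1 - 1 / x i) := by
  intro j
  induction j using Nat.strong_induction_on with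
  | _ j ih =>
    intro hj
    rcases Nat.eq_zero_or_pos j with h0 | h0
    · subst h0; simpa using hKK
    rcases le_total (∏ i ∈ range j, x i) (∏ i ∈ range j, y i) with h | h
    · have hXp : 0 < ∏ i ∈ range j, x i := prod_pos fun i hi => by
        have := hx i ((mem_range.mp hi).trans_le hj)
        linarith
      calc K * ∏ i ∈ range j, (1 - 1 / y i) ≤ 1 + 1 / ∏ i ∈ range j, y i := hyK j h0
        _ ≤ 1 + 1 / ∏ i ∈ range j, x i := by
          have := one_div_le_one_div_of_le hXp h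
          linarith
        _ ≤ _ := hxK j h0 hj
    · exact core K K' hK hKK x y j (fun i hi => hx i (by omega)) (fun i _ => hy i)
        (fun i k h1 h2 => hm i k h1 (by omega)) (fun l hl => ih l hl (by omega)) h

/-- The Fermat numbers. -/
theorem fermat_prod (r : ℕ) : ∏ i ∈ range r, ((2 : ℝ) ^ 2 ^ i + 1) = 2 ^ 2 ^ r - 1 := by
  induction r with
  | zero => norm_num
  | succ r ih =>
    rw [prod_range_succ, ih, pow_succ 2 r, pow_mul]
    ring

theorem fermat_prod' (r : ℕ) : 2 * ∏ i ∈ range r, (1 - 1 / ((2 : ℝ) ^ 2 ^ i + 1)) =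
    1 + 1 / (2 ^ 2 ^ r - 1) := by
  induction r with
  | zero => norm_num
  | succ r ih =>
    rw [prod_range_succ, ← mul_assoc, ih, pow_succ 2 r, pow_mul]
    have h1 : (1 : ℝ) < 2 ^ 2 ^ r := one_lt_pow₀ (by norm_num) (by positivity)
    have h2 : (2 : ℝ) ^ 2 ^ r - 1 ≠ 0 := by linarith
    have h3 : (2 : ℝ) ^ 2 ^ r + 1 ≠ 0 := by linarith
    have h4 : ((2 : ℝ) ^ 2 ^ r) ^ 2 - 1 ≠ 0 := by nlinarith
    field_simp
    ring

/-- The numbers `5, 7, 37, 1297, ...` -/
noncomputable def g (i : ℕ) : ℝ := if i = 0 then 5 else 6 ^ 2 ^ (i - 1) + 1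

theorem g_prod (r : ℕ) : ∏ i ∈ range (r + 1), g i = 6 ^ 2 ^ r - 1 := by
  induction r with
  | zero => norm_num [g]
  | succ r ih =>
    rw [prod_range_succ, ih]
    simp only [g, Nat.add_eq_zero_iff, one_ne_zero, and_false, if_false, Nat.add_sub_cancel]
    rw [pow_succ 2 r, pow_mul]
    ring

theorem g_prod' (r : ℕ) : 3 / 2 * ∏ i ∈ range (r + 1), (1 - 1 / g i) =
    1 + 1 / (6 ^ 2 ^ r - 1) := by
  induction r with
  | zero => norm_num [g]
  | succ r ih =>
    rw [prod_range_succ, ← mul_assoc, ih]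
    simp only [g, Nat.add_eq_zero_iff, one_ne_zero, and_false, if_false, Nat.add_sub_cancel]
    rw [pow_succ 2 r, pow_mul]
    have h1 : (1 : ℝ) < 6 ^ 2 ^ r := one_lt_pow₀ (by norm_num) (by positivity)
    have h2 : (6 : ℝ) ^ 2 ^ r - 1 ≠ 0 := by linarith
    have h3 : (6 : ℝ) ^ 2 ^ r + 1 ≠ 0 := by linarith
    have h4 : ((6 : ℝ) ^ 2 ^ r) ^ 2 - 1 ≠ 0 := by nlinarith
    field_simp
    ring

theorem one_lt_g (i : ℕ) : 1 < g i := by
  unfold g
  split_ifs
  · norm_num
  · have : (0 : ℝ) < 6 ^ 2 ^ (i - 1) := by positivity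
    linarith

end Pool.Agent.SOB
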