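import Mathlib
import Pool.Agent.helper91.SOB.Core

/-!
# MP_f10000_nt (SOB): `φ n ∣ n + a` and the number of prime factors of `n`
-/

set_option autoImplicit false

namespace Pool.Agent.SOB

open Finset Nat

/-- The elements of a finite set in increasing order. -/
noncomputable def xs (S : Finset ℕ) (i : ℕ) : ℕ :=
  if h : i < S.card then S.orderEmbOfFin rfl ⟨i, h⟩ else 2

theorem xs_mem (S : Finset ℕ) {i : ℕ} (h : i < S.card) : xs S i ∈ S := by
  unfold xs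
  rw [dif_pos h]
  exact Finset.orderEmbOfFin_mem S rfl _

theorem xs_lt (S : Finset ℕ) {i j : ℕ} (hij : i < j) (h : j < S.card) : xs S i < xs S j := by
  unfold xs
  rw [dif_pos h, dif_pos (hij.trans h)]
  exact (S.orderEmbOfFin rfl).lt_iff_lt.mpr (by simpa using hij)

theorem xs_le (S : Finset ℕ) {i j : ℕ} (hij : i ≤ j) (h : j < S.card) : xs S i ≤ xs S j := by
  rcases hij.eq_or_lt with h1 | h1
  · rw [h1]
  · exact (xs_lt S h1 h).le

theorem xs_prod {M : Type*} [CommMonoid M] (S : Finset ℕ) (f : ℕ → M) :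
    ∏ i ∈ range S.card, f (xs S i) = ∏ p ∈ S, f p := by
  rw [← Fin.prod_univ_eq_prod_range (fun i => f (xs S i)), ← Finset.prod_coe_sort S f,
    ← (S.orderIsoOfFin rfl).toEquiv.prod_comp]
  refine Finset.prod_congr rfl fun i _ => ?_
  unfold xs
  rw [dif_pos i.2]
  rfl

theorem totient_real (n : ℕ) :
    ((Nat.totient n : ℕ) : ℝ) = n * ∏ p ∈ n.primeFactors, (1 - 1 / (p : ℝ)) := by
  have h := Nat.totient_eq_mul_prod_factors n
  have h2 : (((Nat.totient n : ℕ) : ℚ) : ℝ) =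
      ((n * ∏ p ∈ n.primeFactors, (1 - (p : ℚ)⁻¹) : ℚ) : ℝ) := by rw [h]
  push_cast at h2
  simpa [one_div] using h2

theorem prod_eq_div (x : ℕ → ℕ) (j : ℕ) (hx : ∀ i < j, 2 ≤ x i) :
    ∏ i ∈ range j, (1 - 1 / (x i : ℝ)) =
      ((∏ i ∈ range j, (x i - 1) : ℕ) : ℝ) / ((∏ i ∈ range j, x i : ℕ) : ℝ) := by
  push_cast
  rw [← prod_div_distrib]
  refine prod_congr rfl fun i hi => ?_
  have h1 := hx i (mem_range.mp hi)
  have h2 : (x i : ℝ) ≠ 0 := by positivity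
  rw [Nat.cast_sub (by omega)]
  field_simp
  simp

/-- Products of `1 - 1 / x` decrease. -/
theorem prod_anti (x : ℕ → ℕ) (r : ℕ) (hx : ∀ i < r, 2 ≤ x i) (j : ℕ) (hj : j ≤ r) :
    ∏ i ∈ range r, (1 - 1 / (x i : ℝ)) ≤ ∏ i ∈ range j, (1 - 1 / (x i : ℝ)) := by
  obtain ⟨l, rfl⟩ := Nat.exists_eq_add_of_le hj
  rw [prod_range_add]
  have h1 : ∀ i < j + l, 0 ≤ 1 - 1 / (x i : ℝ) := fun i hi => by
    have : (1 : ℝ) < x i := by exact_mod_cast (hx i hi)
    exact (one_sub_pos this).le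
  refine mul_le_of_le_one_right (prod_nonneg fun i hi => h1 i (by
    have := mem_range.mp hi; omega)) (prod_le_one (fun i hi => h1 _ (by
    have := mem_range.mp hi; omega)) fun i _ => ?_)
  have : (0 : ℝ) ≤ 1 / (x (j + i) : ℝ) := by positivity
  linarith

theorem gap1 (x : ℕ → ℕ) (j : ℕ) (hx : ∀ i < j, 2 ≤ x i) (k : ℕ)
    (h : 1 < (k : ℝ) * ∏ i ∈ range j, (1 - 1 / (x i : ℝ))) :
    1 + 1 / ∏ i ∈ range j, (x i : ℝ) ≤ (k : ℝ) * ∏ i ∈ range j, (1 - 1 / (x i : ℝ)) := by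
  rw [prod_eq_div x j hx] at h ⊢
  have hX : 0 < ∏ i ∈ range j, x i := prod_pos fun i hi => by
    have := hx i (mem_range.mp hi)
    omega
  have hX' : (0 : ℝ) < ((∏ i ∈ range j, x i : ℕ) : ℝ) := by exact_mod_cast hX
  rw [← mul_div_assoc, lt_div_iff₀ hX', one_mul] at h
  have h1 : (∏ i ∈ range j, x i) + 1 ≤ k * ∏ i ∈ range j, (x i - 1) := by exact_mod_cast h
  have h2 : ((∏ i ∈ range j, x i : ℕ) : ℝ) + 1 ≤ k * ((∏ i ∈ range j, (x i - 1) : ℕ) : ℝ) := by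
    exact_mod_cast h1
  have e : ∏ i ∈ range j, (x i : ℝ) = ((∏ i ∈ range j, x i : ℕ) : ℝ) := by push_cast; rfl
  rw [e, ← mul_div_assoc, le_div_iff₀ hX', add_mul, one_mul, one_div, inv_mul_cancel₀ hX'.ne']
  exact h2

theorem gap2 (x : ℕ → ℕ) (j : ℕ) (hj : 1 ≤ j) (hx : ∀ i < j, 2 ≤ x i) (ho : ∀ i < j, Odd (x i))
    (k : ℕ) (h : 1 < (k : ℝ) / 2 * ∏ i ∈ range j, (1 - 1 / (x i : ℝ))) :
    1 + 1 / ∏ i ∈ range j, (x i : ℝ) ≤ (k : ℝ) / 2 * ∏ i ∈ range j, (1 - 1 / (x i : ℝ)) := by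
  rw [prod_eq_div x j hx] at h ⊢
  have hX : 0 < ∏ i ∈ range j, x i := prod_pos fun i hi => by
    have := hx i (mem_range.mp hi)
    omega
  have hX' : (0 : ℝ) < ((∏ i ∈ range j, x i : ℕ) : ℝ) := by exact_mod_cast hX
  rw [← mul_div_assoc, lt_div_iff₀ hX', one_mul] at h
  have h1 : 2 * (∏ i ∈ range j, x i) < k * ∏ i ∈ range j, (x i - 1) := by
    have : 2 * ((∏ i ∈ range j, x i : ℕ) : ℝ) < k * ((∏ i ∈ range j, (x i - 1) : ℕ) : ℝ) := by
      linarith
    exact_mod_cast this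
  have h3 : 2 ∣ k * ∏ i ∈ range j, (x i - 1) := by
    refine dvd_mul_of_dvd_right ((?_ : 2 ∣ x 0 - 1).trans
      (dvd_prod_of_mem (fun i => x i - 1) (mem_range.mpr (show 0 < j from hj)))) k
    obtain ⟨m, hm⟩ := ho 0 hj
    exact ⟨m, by omega⟩
  have h4 : 2 * (∏ i ∈ range j, x i) + 2 ≤ k * ∏ i ∈ range j, (x i - 1) := by omega
  have h2 : 2 * ((∏ i ∈ range j, x i : ℕ) : ℝ) + 2 ≤
      k * ((∏ i ∈ range j, (x i - 1) : ℕ) : ℝ) := by
    exact_mod_cast h4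
  have e : ∏ i ∈ range j, (x i : ℝ) = ((∏ i ∈ range j, x i : ℕ) : ℝ) := by push_cast; rfl
  rw [e, ← mul_div_assoc, le_div_iff₀ hX', add_mul, one_mul, one_div, inv_mul_cancel₀ hX'.ne']
  linarith

/-- The comparison with the Fermat numbers. -/
theorem headF (k : ℕ) (hk : 2 ≤ k) (x : ℕ → ℕ) (r : ℕ) (hx : ∀ i < r, 2 ≤ x i)
    (hm : ∀ i j, i ≤ j → j < r → x i ≤ x j)
    (h1 : ∀ j ≤ r, 1 < (k : ℝ) * ∏ i ∈ range j, (1 - 1 / (x i : ℝ))) :
    ∀ j ≤ r, 2 * ∏ i ∈ range j, (1 - 1 / ((2 : ℝ) ^ 2 ^ i + 1)) ≤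
      k * ∏ i ∈ range j, (1 - 1 / (x i : ℝ)) := by
  refine head 2 k (by norm_num) (by exact_mod_cast hk) (fun i => (x i : ℝ))
    (fun i => (2 : ℝ) ^ 2 ^ i + 1) r (fun i hi => by exact_mod_cast hx i hi) (fun i => ?_)
    (fun i j h2 h3 => by exact_mod_cast hm i j h2 h3) (fun j _ => ?_) (fun j _ h3 => ?_)
  · have : (0 : ℝ) < 2 ^ 2 ^ i := by positivity
    linarith
  · rw [fermat_prod', fermat_prod]
  · exact gap1 x j (fun i hi => hx i (by omega)) k (h1 j h3)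

theorem coreF (k : ℕ) (hk : 2 ≤ k) (x : ℕ → ℕ) (r : ℕ) (hr : 1 ≤ r) (hx : ∀ i < r, 2 ≤ x i)
    (hm : ∀ i j, i ≤ j → j < r → x i ≤ x j)
    (h1 : ∀ j < r, 1 < (k : ℝ) * ∏ i ∈ range j, (1 - 1 / (x i : ℝ))) (t : ℝ) (ht : 1 < t)
    (hX : (2 ^ 2 ^ (r - 1) - 1) * t ≤ ∏ i ∈ range r, (x i : ℝ)) :
    (1 + 1 / ((2 : ℝ) ^ 2 ^ (r - 1) - 1)) * (1 - 1 / t) ≤
      k * ∏ i ∈ range r, (1 - 1 / (x i : ℝ)) := by
  have hh := headF k hk x (r - 1) (fun i hi => hx i (by omega)) (fun i j h2 h3 => hm i j h2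
    (by omega)) (fun j hj => h1 j (by omega))
  set y : ℕ → ℝ := fun i => if i < r - 1 then (2 : ℝ) ^ 2 ^ i + 1 else t with hy
  have hyl : ∀ (f : ℝ → ℝ) (l : ℕ), l ≤ r - 1 →
      ∏ i ∈ range l, f (y i) = ∏ i ∈ range l, f ((2 : ℝ) ^ 2 ^ i + 1) := by
    intro f l hl
    refine prod_congr rfl fun i hi => ?_
    simp only [hy]
    rw [if_pos ((mem_range.mp hi).trans_le hl)]
  have hyr : y (r - 1) = t := by simp [hy]
  have hr' : r = r - 1 + 1 := by omega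
  have h3 := core 2 k (by norm_num) (by exact_mod_cast hk) (fun i => (x i : ℝ)) y r
    (fun i hi => by exact_mod_cast hx i hi) (fun i hi => ?_)
    (fun i j h2 h3 => by exact_mod_cast hm i j h2 h3) (fun l hl => ?_) ?_
  · have e : 2 * ∏ i ∈ range r, (1 - 1 / y i) =
        (1 + 1 / ((2 : ℝ) ^ 2 ^ (r - 1) - 1)) * (1 - 1 / t) := by
      rw [hr', prod_range_succ, hyl (fun z => 1 - 1 / z) (r - 1) le_rfl, ← mul_assoc,
        fermat_prod', ← hr', hyr]
    rw [e] at h3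
    exact h3
  · simp only [hy]
    split_ifs
    · have : (0 : ℝ) < 2 ^ 2 ^ i := by positivity
      linarith
    · exact ht
  · rw [hyl (fun z => 1 - 1 / z) l (by omega)]
    exact hh l (by omega)
  · rw [hr', prod_range_succ, hyl (fun z => z) (r - 1) le_rfl, fermat_prod, ← hr', hyr]
    exact hX

/-! ### Positive shifts -/

theorem primes_two (n : ℕ) {p : ℕ} (hp : p ∈ n.primeFactors) : 2 ≤ p :=
  (Nat.prime_of_mem_primeFactors hp).two_le

theorem card_pos (n : ℕ) (hn : 1 < n) : 1 ≤ n.primeFactors.card :=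
  Finset.card_pos.mpr (Nat.nonempty_primeFactors.mpr hn)

theorem ratio (n a k : ℕ) (hn : 0 < n) (hk : n + a = k * Nat.totient n) :
    (k : ℝ) * ∏ p ∈ n.primeFactors, (1 - 1 / (p : ℝ)) = 1 + a / n := by
  have h := totient_real n
  have hn' : (0 : ℝ) < n := by exact_mod_cast hn
  have h2 : (n : ℝ) + a = k * ((Nat.totient n : ℕ) : ℝ) := by exact_mod_cast hk
  rw [h] at h2
  field_simp
  linarith

theorem k_two (n a k : ℕ) (ha : 0 < a) (hk : n + a = k * Nat.totient n) : 2 ≤ k := by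
  by_contra hcon
  push Not at hcon
  have h1 := Nat.totient_le n
  have h2 : k * Nat.totient n ≤ 1 * Nat.totient n := Nat.mul_le_mul_right _ (by omega)
  omega

theorem pos1 (n a k c : ℕ) (hn : 1 < n) (ha : 0 < a) (hk : n + a = k * Nat.totient n)
    (hc : n = c * ∏ p ∈ n.primeFactors, p) :
    (n : ℝ) ≤ (2 ^ 2 ^ (n.primeFactors.card - 1) - 1) *
      (2 ^ 2 ^ (n.primeFactors.card - 1) * c + a) := by
  set S := n.primeFactors with hS
  set r := S.card with hr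
  have hr1 : 1 ≤ r := card_pos n hn
  have hn' : (0 : ℝ) < n := by exact_mod_cast (by omega : 0 < n)
  have ha' : (0 : ℝ) < a := by exact_mod_cast ha
  have hc0 : 0 < c := by
    rcases Nat.eq_zero_or_pos c with h | h
    · rw [h, zero_mul] at hc
      omega
    · exact h
  have hc' : (0 : ℝ) < c := by exact_mod_cast hc0
  have hx2 : ∀ i < r, 2 ≤ xs S i := fun i hi => primes_two n (xs_mem S hi)
  have hm : ∀ i j, i ≤ j → j < r → xs S i ≤ xs S j := fun i j h1 h2 => xs_le S h1 h2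
  have hrat := ratio n a k (by omega) hk
  rw [← hS, ← xs_prod S (fun p => 1 - 1 / (p : ℝ))] at hrat
  have h1 : ∀ j ≤ r, 1 < (k : ℝ) * ∏ i ∈ range j, (1 - 1 / (xs S i : ℝ)) := by
    intro j hj
    have h2 := mul_le_mul_of_nonneg_left (prod_anti (xs S) r hx2 j hj)
      (Nat.cast_nonneg (α := ℝ) k)
    rw [hrat] at h2
    have h3 : (0 : ℝ) < a / n := by positivity
    linarith
  have hk2 := k_two n a k ha hk
  by_contra hcon
  push Not at hcon
  set T : ℝ := 2 ^ 2 ^ (r - 1) with hT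
  have hT2 : 2 ≤ T := by
    rw [hT]
    calc (2 : ℝ) = 2 ^ 1 := by norm_num
      _ ≤ 2 ^ 2 ^ (r - 1) := pow_le_pow_right₀ (by norm_num) Nat.one_le_two_pow
  have ht : 1 < T + a / c := by
    have : (0 : ℝ) < a / c := by positivity
    linarith
  have hprod : (n : ℝ) = c * ∏ i ∈ range r, (xs S i : ℝ) := by
    rw [xs_prod S (fun p => (p : ℝ))]
    have h2 : ((n : ℕ) : ℝ) = ((c * ∏ p ∈ S, p : ℕ) : ℝ) := by rw [← hc]
    push_cast at h2
    exact h2
  have hX : (T - 1) * (T + a / c) < ∏ i ∈ range r, (xs S i : ℝ) := by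
    have h2 : c * ((T - 1) * (T + a / c)) < c * ∏ i ∈ range r, (xs S i : ℝ) := by
      rw [← hprod]
      refine lt_of_eq_of_lt ?_ hcon
      field_simp
    exact lt_of_mul_lt_mul_left h2 hc'.le
  have h2 := coreF k hk2 (xs S) r hr1 hx2 hm (fun j hj => h1 j hj.le) (T + a / c) ht hX.le
  rw [hrat] at h2
  have h3 : (1 + 1 / (T - 1)) * (1 - 1 / (T + a / c)) = 1 + (a / c) / ((T - 1) * (T + a / c)) := by
    have e1 : T - 1 ≠ 0 := by linarith
    have e2 : T + a / c ≠ 0 := by linarith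
    have e3 : (T - 1) * (T + a / c) ≠ 0 := mul_ne_zero e1 e2
    rw [eq_comm, ← sub_eq_zero]
    generalize (a : ℝ) / c = w at *
    field_simp
    ring
  rw [← hT, h3] at h2
  have h4 : (a : ℝ) / n < (a / c) / ((T - 1) * (T + a / c)) := by
    rw [hprod, ← div_div]
    exact div_lt_div_of_pos_left (by positivity) (mul_pos (by linarith) (by linarith)) hX
  linarith

theorem pos2 (n a k : ℕ) (ha : 0 < a) (hk : n + a = k * Nat.totient n) (he : 2 ∣ n)
    (hr : 2 ≤ n.primeFactors.card) :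
    (n : ℝ) ≤ (6 ^ 2 ^ (n.primeFactors.card - 2) - 1) * a := by
  have hn0 : 0 < n := by
    rcases Nat.eq_zero_or_pos n with h | h
    · rw [h] at hr
      simp at hr
    · exact h
  have hn' : (0 : ℝ) < n := by exact_mod_cast hn0
  have ha' : (0 : ℝ) < a := by exact_mod_cast ha
  have h2S : 2 ∈ n.primeFactors := Nat.mem_primeFactors.mpr ⟨Nat.prime_two, he, hn0.ne'⟩
  set S := n.primeFactors.erase 2 with hS
  have hcard : S.card = n.primeFactors.card - 1 := card_erase_of_mem h2S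
  set r := S.card with hrd
  have hxS : ∀ i < r, xs S i ∈ n.primeFactors ∧ xs S i ≠ 2 := fun i hi =>
    ⟨mem_of_mem_erase (xs_mem S hi), ne_of_mem_erase (xs_mem S hi)⟩
  have hx2 : ∀ i < r, 2 ≤ xs S i := fun i hi => primes_two n (hxS i hi).1
  have hxo : ∀ i < r, Odd (xs S i) := fun i hi =>
    (Nat.prime_of_mem_primeFactors (hxS i hi).1).odd_of_ne_two (hxS i hi).2
  have hm : ∀ i j, i ≤ j → j < r → xs S i ≤ xs S j := fun i j h1 h2 => xs_le S h1 h2
  have hrat := ratio n a k hn0 hk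
  rw [← mul_prod_erase _ _ h2S, ← hS, ← xs_prod S (fun p => 1 - 1 / (p : ℝ)), ← mul_assoc] at hrat
  have e1 : (k : ℝ) * (1 - 1 / ((2 : ℕ) : ℝ)) = k / 2 := by push_cast; ring
  rw [e1] at hrat
  have h1 : ∀ j ≤ r, 1 < (k : ℝ) / 2 * ∏ i ∈ range j, (1 - 1 / (xs S i : ℝ)) := by
    intro j hj
    have h2 := mul_le_mul_of_nonneg_left (prod_anti (xs S) r hx2 j hj)
      (by positivity : (0 : ℝ) ≤ (k : ℝ) / 2)
    rw [hrat] at h2
    have h3 : (0 : ℝ) < a / n := by positivity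
    linarith
  have hk3 : (3 : ℝ) / 2 ≤ k / 2 := by
    have h2 := h1 0 (by omega)
    simp only [range_zero, prod_empty, mul_one] at h2
    have h3 : (2 : ℝ) < k := by linarith
    have h4 : 2 < k := by exact_mod_cast h3
    have h5 : (3 : ℝ) ≤ k := by exact_mod_cast h4
    linarith
  have hh := head (3 / 2) (k / 2) (by norm_num) hk3 (fun i => (xs S i : ℝ)) g r
    (fun i hi => by exact_mod_cast hx2 i hi) one_lt_g
    (fun i j h2 h3 => by exact_mod_cast hm i j h2 h3) (fun j hj => ?_)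
    (fun j h2 h3 => gap2 (xs S) j h2 (fun i hi => hx2 i (by omega)) (fun i hi => hxo i (by omega))
      k (h1 j h3)) r le_rfl
  · have hr1 : r = (n.primeFactors.card - 2) + 1 := by omega
    rw [hrat, hr1, g_prod'] at hh
    have hG : (0 : ℝ) < 6 ^ 2 ^ (n.primeFactors.card - 2) - 1 := by
      have : (1 : ℝ) < 6 ^ 2 ^ (n.primeFactors.card - 2) :=
        one_lt_pow₀ (by norm_num) (by positivity)
      linarith
    have h5 : 1 / ((6 : ℝ) ^ 2 ^ (n.primeFactors.card - 2) - 1) ≤ a / n := by linarith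
    rw [div_le_div_iff₀ hG hn', one_mul] at h5
    linarith
  · obtain ⟨l, rfl⟩ := Nat.exists_eq_add_of_le' hj
    rw [g_prod', g_prod]

end Pool.Agent.SOB
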