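import Mathlib
import Pool.Agent.helper91.SOB.Main

/-!
# MP_f10000_nt (SOB): negative shifts
-/

set_option autoImplicit false

namespace Pool.Agent.SOB

open Finset Nat

theorem neg1 (n c k : ℕ) (hc : 0 < c) (hcn : c < n) (hk : n = k * Nat.totient n + c) :
    (∃ p, p.Prime ∧ ¬ p ∣ c ∧ Nat.totient c ∣ c ∧ n = c * p) ∨ n ≤ c ^ 2 ∨
      n < (2 ^ 2 ^ n.primeFactors.card - 2 ^ 2 ^ (n.primeFactors.card - 1)) * c := by
  classical
  set S := n.primeFactors with hS
  set r := S.card with hr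
  have hn1 : 1 < n := by omega
  have hr1 : 1 ≤ r := card_pos n hn1
  have hn' : (0 : ℝ) < n := by exact_mod_cast (by omega : 0 < n)
  have hc' : (0 : ℝ) < c := by exact_mod_cast hc
  have hx2 : ∀ i < r, 2 ≤ xs S i := fun i hi => primes_two n (xs_mem S hi)
  have hxp : ∀ i < r, (xs S i).Prime ∧ xs S i ∣ n := fun i hi =>
    ⟨Nat.prime_of_mem_primeFactors (xs_mem S hi), Nat.dvd_of_mem_primeFactors (xs_mem S hi)⟩
  have hm : ∀ i j, i ≤ j → j < r → xs S i ≤ xs S j := fun i j h1 h2 => xs_le S h1 h2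
  have hrat : (k : ℝ) * ∏ i ∈ range r, (1 - 1 / (xs S i : ℝ)) = 1 - c / n := by
    rw [xs_prod S (fun p => 1 - 1 / (p : ℝ))]
    have h := totient_real n
    have h2 : (n : ℝ) = k * ((Nat.totient n : ℕ) : ℝ) + c := by exact_mod_cast hk
    rw [h] at h2
    have h3 : (n : ℝ) * (k * ∏ p ∈ S, (1 - 1 / (p : ℝ))) = n - c := by
      rw [← hS] at h2
      linarith
    rw [eq_sub_iff_add_eq, ← mul_right_inj' hn'.ne', mul_add, h3, mul_div_cancel₀ _ hn'.ne']
    ring
  have hk1 : 1 ≤ k := by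
    rcases Nat.eq_zero_or_pos k with h | h
    · rw [h, zero_mul, zero_add] at hk
      omega
    · exact h
  have hpos : ∀ j ≤ r, 0 < ∏ i ∈ range j, (1 - 1 / (xs S i : ℝ)) := fun j hj =>
    prod_one_sub_pos (fun i => (xs S i : ℝ)) _ fun i hi => by
      exact_mod_cast hx2 i ((mem_range.mp hi).trans_le hj)
  have hlt1 : (k : ℝ) * ∏ i ∈ range r, (1 - 1 / (xs S i : ℝ)) < 1 := by
    rw [hrat]
    have : (0 : ℝ) < c / n := by positivity
    linarith
  -- the least `j` with `k ∏ ≤ 1`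
  have hex : ∃ j, (k : ℝ) * ∏ i ∈ range j, (1 - 1 / (xs S i : ℝ)) ≤ 1 := ⟨r, hlt1.le⟩
  set j := Nat.find hex with hj
  have hjle : j ≤ r := Nat.find_min' hex hlt1.le
  have hjs : (k : ℝ) * ∏ i ∈ range j, (1 - 1 / (xs S i : ℝ)) ≤ 1 := Nat.find_spec hex
  have hjm : ∀ l < j, 1 < (k : ℝ) * ∏ i ∈ range l, (1 - 1 / (xs S i : ℝ)) := fun l hl =>
    not_le.mp (Nat.find_min hex hl)
  rcases hjs.eq_or_lt with heq | hlt
  · -- equality
    have hjr : j < r := by
      refine lt_of_le_of_ne hjle fun h => ?_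
      rw [h] at heq
      linarith
    have hsp : ∏ i ∈ range r, (1 - 1 / (xs S i : ℝ)) = (∏ i ∈ range j, (1 - 1 / (xs S i : ℝ))) *
        ∏ i ∈ range (r - j), (1 - 1 / (xs S (j + i) : ℝ)) := by
      rw [← prod_range_add, Nat.add_sub_cancel' hjle]
    rw [hsp, ← mul_assoc, heq, one_mul] at hrat
    set p := xs S j with hp
    have hpp : p.Prime := (hxp j hjr).1
    have hpn : p ∣ n := (hxp j hjr).2
    have hp0 : (0 : ℝ) < p := by exact_mod_cast hpp.pos
    have hsp2 : ∏ i ∈ range (r - j), (1 - 1 / (xs S (j + i) : ℝ)) = (1 - 1 / (p : ℝ)) *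
        ∏ i ∈ range (r - j - 1), (1 - 1 / (xs S (j + (i + 1)) : ℝ)) := by
      have h1 : r - j = r - j - 1 + 1 := by omega
      rw [h1, prod_range_succ', Nat.add_sub_cancel, mul_comm]
      simp [hp]
    -- `n ≤ c p`
    have hle1 : ∏ i ∈ range (r - j - 1), (1 - 1 / (xs S (j + (i + 1)) : ℝ)) ≤ 1 :=
      prod_le_one (fun i hi => by
        have h1 := hx2 (j + (i + 1)) (by have := mem_range.mp hi; omega)
        have h2 : (1 : ℝ) < xs S (j + (i + 1)) := by exact_mod_cast h1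
        exact (one_sub_pos h2).le) (fun i _ => by
        have h2 : (0 : ℝ) ≤ 1 / (xs S (j + (i + 1)) : ℝ) := by positivity
        linarith)
    have hp1 : 0 < 1 - 1 / (p : ℝ) := one_sub_pos (by exact_mod_cast hpp.one_lt)
    have hcp : n ≤ c * p := by
      have h1 : 1 - (c : ℝ) / n ≤ 1 - 1 / p := by
        rw [← hrat, hsp2]
        exact mul_le_of_le_one_right hp1.le hle1
      have h2 : 1 / (p : ℝ) ≤ c / n := by linarith
      rw [div_le_div_iff₀ hp0 hn', one_mul] at h2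
      exact_mod_cast h2
    have hsq : p ^ 2 ≤ n → n ≤ c ^ 2 := by
      intro h1
      by_contra hcon
      push Not at hcon
      have h2 : n * n ≤ (c * p) * (c * p) := Nat.mul_le_mul hcp hcp
      have h3 : (c * p) * (c * p) = c ^ 2 * p ^ 2 := by ring
      have h4 : c ^ 2 * p ^ 2 < n * n := by
        calc c ^ 2 * p ^ 2 ≤ c ^ 2 * n := Nat.mul_le_mul_left _ h1
          _ < n * n := Nat.mul_lt_mul_of_pos_right hcon (by omega)
      omega
    rcases Nat.lt_or_ge (j + 1) r with hj1 | hj1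
    · -- another prime
      have h1 := (hxp (j + 1) hj1)
      have h2 : p < xs S (j + 1) := xs_lt S (Nat.lt_succ_self j) hj1
      have hcop : Nat.Coprime p (xs S (j + 1)) :=
        (Nat.coprime_primes hpp h1.1).mpr (by omega)
      have h3 : p * xs S (j + 1) ∣ n := hcop.mul_dvd_of_dvd_of_dvd hpn h1.2
      refine Or.inr (Or.inl (hsq ?_))
      calc p ^ 2 = p * p := by ring
        _ ≤ p * xs S (j + 1) := Nat.mul_le_mul_left _ h2.le
        _ ≤ n := Nat.le_of_dvd (by omega) h3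
    · -- `p` is the last prime
      have h0 : r - j - 1 = 0 := by omega
      rw [hsp2, h0, prod_range_zero, mul_one] at hrat
      have hncp : n = c * p := by
        have h2 : 1 / (p : ℝ) = c / n := by linarith
        rw [div_eq_div_iff hp0.ne' hn'.ne', one_mul] at h2
        exact_mod_cast h2
      by_cases hpc : p ∣ c
      · refine Or.inr (Or.inl (hsq ?_))
        obtain ⟨e, he⟩ := hpc
        have he0 : 1 ≤ e := by
          rcases Nat.eq_zero_or_pos e with h | h
          · rw [h, mul_zero] at he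
            omega
          · exact h
        calc p ^ 2 = p * 1 * p := by ring
          _ ≤ p * e * p := Nat.mul_le_mul_right _ (Nat.mul_le_mul_left _ he0)
          _ = n := by rw [← he, ← hncp]
      · refine Or.inl ⟨p, hpp, hpc, ?_, hncp⟩
        have hcop : Nat.Coprime c p := ((Nat.Prime.coprime_iff_not_dvd hpp).mpr hpc).symm
        rw [hncp, Nat.totient_mul hcop, Nat.totient_prime hpp] at hk
        have hpp1 := hpp.one_lt
        have h5 : c * (p - 1) = k * Nat.totient c * (p - 1) := by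
          have e1 : c * p = c * (p - 1) + c := by
            calc c * p = c * (p - 1 + 1) := by rw [Nat.sub_add_cancel hpp.one_le]
              _ = c * (p - 1) + c := by ring
          have e2 : k * (Nat.totient c * (p - 1)) = k * Nat.totient c * (p - 1) := by ring
          omega
        have h6 : c = k * Nat.totient c := Nat.eq_of_mul_eq_mul_right (by omega) h5
        exact ⟨k, by rw [mul_comm]; exact h6⟩
  · -- strict inequality
    have hk2 : 1 ≤ j := by
      by_contra hcon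
      have h0 : j = 0 := by omega
      rw [h0] at hlt
      simp only [range_zero, prod_empty, mul_one] at hlt
      have : (1 : ℝ) ≤ k := by exact_mod_cast hk1
      linarith
    have hk3 : 2 ≤ k := by
      have h1 := hjm 0 (by omega)
      simp only [range_zero, prod_empty, mul_one] at h1
      exact_mod_cast h1
    have hX : 0 < ∏ i ∈ range j, xs S i := prod_pos fun i hi => by
      have := hx2 i ((mem_range.mp hi).trans_le hjle)
      omega
    have hX' : (0 : ℝ) < ((∏ i ∈ range j, xs S i : ℕ) : ℝ) := by exact_mod_cast hX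
    -- `n ≤ c X_j`
    have h1 : n ≤ c * ∏ i ∈ range j, xs S i := by
      have h2 := hlt
      rw [prod_eq_div (xs S) j fun i hi => hx2 i (by omega), ← mul_div_assoc,
        div_lt_one hX'] at h2
      have h3 : k * ∏ i ∈ range j, (xs S i - 1) + 1 ≤ ∏ i ∈ range j, xs S i := by exact_mod_cast h2
      have h4 : (k : ℝ) * ∏ i ∈ range j, (1 - 1 / (xs S i : ℝ)) ≤
          1 - 1 / ((∏ i ∈ range j, xs S i : ℕ) : ℝ) := by
        rw [prod_eq_div (xs S) j fun i hi => hx2 i (by omega), ← mul_div_assoc,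
          div_le_iff₀ hX', sub_mul, one_mul, one_div, inv_mul_cancel₀ hX'.ne']
        have h5 : (k : ℝ) * ((∏ i ∈ range j, (xs S i - 1) : ℕ) : ℝ) + 1 ≤
          ((∏ i ∈ range j, xs S i : ℕ) : ℝ) := by exact_mod_cast h3
        linarith
      have h5 := (mul_le_mul_of_nonneg_left (prod_anti (xs S) r hx2 j hjle)
        (Nat.cast_nonneg (α := ℝ) k)).trans h4
      rw [hrat] at h5
      have h6 : 1 / ((∏ i ∈ range j, xs S i : ℕ) : ℝ) ≤ c / n := by linarith
      rw [div_le_div_iff₀ hX' hn', one_mul] at h6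
      exact_mod_cast h6
    -- `X_j < T² - T`
    have h2 : (∏ i ∈ range j, xs S i) < 2 ^ 2 ^ j - 2 ^ 2 ^ (j - 1) := by
      by_contra hcon
      push Not at hcon
      have hT2 : (2 : ℝ) ≤ 2 ^ 2 ^ (j - 1) := by
        calc (2 : ℝ) = 2 ^ 1 := by norm_num
          _ ≤ 2 ^ 2 ^ (j - 1) := pow_le_pow_right₀ (by norm_num) Nat.one_le_two_pow
      have hsqT : 2 ^ 2 ^ j = 2 ^ 2 ^ (j - 1) * 2 ^ 2 ^ (j - 1) := by
        rw [← pow_add]
        congr 1
        obtain ⟨l, hl⟩ := Nat.exists_eq_add_of_le' hk2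
        rw [hl, Nat.add_sub_cancel, pow_succ]
        ring
      have h3 : ((2 : ℝ) ^ 2 ^ (j - 1) - 1) * 2 ^ 2 ^ (j - 1) ≤ ∏ i ∈ range j, (xs S i : ℝ) := by
        have h4 : 2 ^ 2 ^ (j - 1) * 2 ^ 2 ^ (j - 1) ≤ (∏ i ∈ range j, xs S i) + 2 ^ 2 ^ (j - 1) := by
          rw [hsqT] at hcon
          omega
        have h5 : (2 : ℝ) ^ 2 ^ (j - 1) * 2 ^ 2 ^ (j - 1) ≤
            ((∏ i ∈ range j, xs S i : ℕ) : ℝ) + 2 ^ 2 ^ (j - 1) := by exact_mod_cast h4
        push_cast at h5
        linarith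
      have h4 := coreF k hk3 (xs S) j hk2 (fun i hi => hx2 i (by omega))
        (fun i l h5 h6 => hm i l h5 (by omega)) hjm (2 ^ 2 ^ (j - 1)) (by linarith) h3
      have h5 : (1 + 1 / ((2 : ℝ) ^ 2 ^ (j - 1) - 1)) * (1 - 1 / 2 ^ 2 ^ (j - 1)) = 1 := by
        have e1 : (2 : ℝ) ^ 2 ^ (j - 1) - 1 ≠ 0 := by linarith
        have e2 : (2 : ℝ) ^ 2 ^ (j - 1) ≠ 0 := by positivity
        field_simp
        ring
      rw [h5] at h4
      linarith
    have hmono : ∀ l, 1 ≤ l → 2 ^ 2 ^ l - 2 ^ 2 ^ (l - 1) ≤ 2 ^ 2 ^ (l + 1) - 2 ^ 2 ^ l := by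
      intro l hl
      have e1 : 2 ^ 2 ^ (l + 1) = 2 ^ 2 ^ l * 2 ^ 2 ^ l := by
        rw [← pow_add]
        congr 1
        rw [pow_succ]
        ring
      have e2 : 2 ≤ 2 ^ 2 ^ l := by
        calc 2 = 2 ^ 1 := by norm_num
          _ ≤ 2 ^ 2 ^ l := Nat.pow_le_pow_right (by norm_num) Nat.one_le_two_pow
      have e3 : 2 * 2 ^ 2 ^ l ≤ 2 ^ 2 ^ l * 2 ^ 2 ^ l := Nat.mul_le_mul_right _ e2
      rw [e1]
      exact (Nat.sub_le _ _).trans (Nat.le_sub_of_add_le (by linarith))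
    have h3 : ∀ l, j ≤ l → 2 ^ 2 ^ j - 2 ^ 2 ^ (j - 1) ≤ 2 ^ 2 ^ l - 2 ^ 2 ^ (l - 1) := by
      intro l hl
      induction l, hl using Nat.le_induction with
      | base => exact le_rfl
      | succ l hl ih => exact ih.trans (hmono l (by omega))
    refine Or.inr (Or.inr ?_)
    calc n ≤ c * ∏ i ∈ range j, xs S i := h1
      _ < c * (2 ^ 2 ^ j - 2 ^ 2 ^ (j - 1)) := Nat.mul_lt_mul_of_pos_left h2 hc
      _ ≤ c * (2 ^ 2 ^ r - 2 ^ 2 ^ (r - 1)) := Nat.mul_le_mul_left _ (h3 r hjle)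
      _ = (2 ^ 2 ^ r - 2 ^ 2 ^ (r - 1)) * c := mul_comm _ _

end Pool.Agent.SOB
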