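import Mathlib
import Pool.Agent.helper91.SOB.Neg

/-!
# MP_f10000_nt (SOB): the bounds, and the examples which show that they are sharp
-/

set_option autoImplicit false

namespace Pool.Agent.SOB

open Finset Nat

theorem rad_dvd (n : ℕ) : ∃ c, n = c * ∏ p ∈ n.primeFactors, p := by
  obtain ⟨c, hc⟩ := Nat.prod_primeFactors_dvd n
  exact ⟨c, by rw [mul_comm]; exact hc⟩

/-- `n / rad n` divides `φ n`. -/
theorem dvd_totient (n c : ℕ) (hn : 0 < n) (hc : n = c * ∏ p ∈ n.primeFactors, p) :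
    c ∣ Nat.totient n := by
  have h := Nat.totient_mul_prod_primeFactors n
  set P := ∏ p ∈ n.primeFactors, p with hP
  have hP0 : 0 < P := by
    rcases Nat.eq_zero_or_pos P with h0 | h0
    · rw [h0, mul_zero] at hc
      omega
    · exact h0
  have h1 : Nat.totient n * P = (c * ∏ p ∈ n.primeFactors, (p - 1)) * P := by
    calc Nat.totient n * P = n * ∏ p ∈ n.primeFactors, (p - 1) := h
      _ = (c * P) * ∏ p ∈ n.primeFactors, (p - 1) := by rw [← hc]
      _ = _ := by ring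
  exact ⟨_, Nat.eq_of_mul_eq_mul_right hP0 h1⟩

theorem pos_all (n a : ℕ) (hn : 0 < n) (ha : 0 < a) (h : Nat.totient n ∣ n + a) :
    n ≤ (2 ^ 2 ^ n.primeFactors.card - 1) * a ∧
    (2 ∣ n → 2 ≤ n.primeFactors.card → n ≤ (6 ^ 2 ^ (n.primeFactors.card - 2) - 1) * a) ∧
    ∃ c, c ∣ a ∧ n = c * ∏ p ∈ n.primeFactors, p ∧
      (1 < n → n ≤ (2 ^ 2 ^ (n.primeFactors.card - 1) - 1) *
        (2 ^ 2 ^ (n.primeFactors.card - 1) * c + a)) := by
  obtain ⟨k, hk'⟩ := h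
  have hk : n + a = k * Nat.totient n := by rw [hk', mul_comm]
  obtain ⟨c, hc⟩ := rad_dvd n
  have hca : c ∣ a := by
    have h1 : c ∣ n + a := (dvd_totient n c hn hc).trans ⟨k, hk'⟩
    exact (Nat.dvd_add_right ⟨_, hc⟩).mp h1
  have h3 : 1 < n → n ≤ (2 ^ 2 ^ (n.primeFactors.card - 1) - 1) *
        (2 ^ 2 ^ (n.primeFactors.card - 1) * c + a) := by
    intro hn1
    have h4 := pos1 n a k c hn1 ha hk hc
    have h5 : 1 ≤ 2 ^ 2 ^ (n.primeFactors.card - 1) := Nat.one_le_two_pow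
    have h6 : ((2 ^ 2 ^ (n.primeFactors.card - 1) - 1 : ℕ) : ℝ) =
        2 ^ 2 ^ (n.primeFactors.card - 1) - 1 := by
      rw [Nat.cast_sub h5]
      push_cast
      ring
    rw [← h6] at h4
    exact_mod_cast h4
  refine ⟨?_, fun he hr => ?_, c, hca, hc, h3⟩
  · rcases Nat.lt_or_ge 1 n with hn1 | hn1
    · have h4 := h3 hn1
      have hr1 := card_pos n hn1
      have hcle : c ≤ a := Nat.le_of_dvd ha hca
      have e1 : 2 ^ 2 ^ n.primeFactors.card =
          2 ^ 2 ^ (n.primeFactors.card - 1) * 2 ^ 2 ^ (n.primeFactors.card - 1) := by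
        rw [← pow_add]
        congr 1
        obtain ⟨l, hl⟩ := Nat.exists_eq_add_of_le' hr1
        rw [hl, Nat.add_sub_cancel, pow_succ]
        ring
      have h5 : 1 ≤ 2 ^ 2 ^ (n.primeFactors.card - 1) := Nat.one_le_two_pow
      rw [e1]
      generalize 2 ^ 2 ^ (n.primeFactors.card - 1) = T at h4 h5
      obtain ⟨t, rfl⟩ := Nat.exists_eq_add_of_le' h5
      rw [Nat.add_sub_cancel] at h4
      have e2 : (t + 1) * (t + 1) - 1 = t * (t + 2) := by
        have : (t + 1) * (t + 1) = t * (t + 2) + 1 := by ring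
        omega
      rw [e2]
      calc n ≤ t * ((t + 1) * c + a) := h4
        _ ≤ t * ((t + 1) * a + a) := Nat.mul_le_mul_left _ (Nat.add_le_add_right
          (Nat.mul_le_mul_left _ hcle) _)
        _ = t * (t + 2) * a := by ring
    · have h0 : n = 1 := by omega
      subst h0
      simp
      omega
  · have h4 := pos2 n a k ha hk he hr
    have h5 : 1 ≤ 6 ^ 2 ^ (n.primeFactors.card - 2) := Nat.one_le_pow _ _ (by norm_num)
    have h6 : ((6 ^ 2 ^ (n.primeFactors.card - 2) - 1 : ℕ) : ℝ) =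
        6 ^ 2 ^ (n.primeFactors.card - 2) - 1 := by
      rw [Nat.cast_sub h5]
      push_cast
      ring
    rw [← h6] at h4
    exact_mod_cast h4

theorem neg_all (n c : ℕ) (hc : 0 < c) (h : (Nat.totient n : ℤ) ∣ (n : ℤ) - c) :
    (∃ p, p.Prime ∧ ¬ p ∣ c ∧ Nat.totient c ∣ c ∧ n = c * p) ∨ n ≤ c ^ 2 ∨
      n < (2 ^ 2 ^ n.primeFactors.card - 2 ^ 2 ^ (n.primeFactors.card - 1)) * c := by
  rcases Nat.lt_or_ge c n with h1 | h1
  · have h2 : ((n - c : ℕ) : ℤ) = (n : ℤ) - c := by omega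
    rw [← h2] at h
    obtain ⟨k, hk⟩ := Int.natCast_dvd_natCast.mp h
    refine neg1 n c k hc h1 ?_
    rw [mul_comm, ← hk]
    omega
  · refine Or.inr (Or.inl (h1.trans ?_))
    calc c = c * 1 := (mul_one c).symm
      _ ≤ c * c := Nat.mul_le_mul_left _ hc
      _ = c ^ 2 := by ring

/-! ### Examples -/

theorem ex_gen (l : Finset ℕ) (hl : ∀ p ∈ l, p.Prime) (w : ℕ) (hw0 : 0 < w)
    (hw : w.primeFactors ⊆ l) : ((∏ p ∈ l, p) * w).primeFactors = l ∧
      Nat.totient ((∏ p ∈ l, p) * w) = (∏ p ∈ l, (p - 1)) * w := by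
  have hm : (∏ p ∈ l, p) ≠ 0 := prod_ne_zero_iff.mpr fun p hp => (hl p hp).ne_zero
  have h1 : ((∏ p ∈ l, p) * w).primeFactors = l := by
    rw [Nat.primeFactors_mul hm hw0.ne', Nat.primeFactors_prod hl]
    exact union_eq_left.mpr hw
  refine ⟨h1, ?_⟩
  have h2 := Nat.totient_mul_prod_primeFactors ((∏ p ∈ l, p) * w)
  rw [h1] at h2
  refine Nat.eq_of_mul_eq_mul_right (Nat.pos_of_ne_zero hm) ?_
  rw [h2]
  ring

/-- the first Fermat primes -/
def fl : ℕ → Finset ℕ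
  | 0 => ∅
  | 1 => {3}
  | 2 => {3, 5}
  | 3 => {3, 5, 17}
  | 4 => {3, 5, 17, 257}
  | _ => {3, 5, 17, 257, 65537}

theorem fl_prime (r : ℕ) : ∀ p ∈ fl r, p.Prime := by
  intro p hp
  have h : p ∈ ({3, 5, 17, 257, 65537} : Finset ℕ) := by
    unfold fl at hp
    split at hp <;> simp at hp ⊢ <;> omega
  simp only [mem_insert, mem_singleton] at h
  rcases h with rfl | rfl | rfl | rfl | rfl <;> norm_num

theorem fl_spec (r : ℕ) (hr : r ≤ 5) : (fl r).card = r ∧ ∏ p ∈ fl r, p = 2 ^ 2 ^ r - 1 ∧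
    ∏ p ∈ fl r, (p - 1) ∣ 2 ^ 2 ^ r ∧ ∀ p ∈ fl r, p ≤ 2 ^ 2 ^ r := by
  have h : r = 0 ∨ r = 1 ∨ r = 2 ∨ r = 3 ∨ r = 4 ∨ r = 5 := by omega
  rcases h with rfl | rfl | rfl | rfl | rfl | rfl
  all_goals
    refine ⟨by simp [fl], by simp [fl], ?_, by simp [fl]⟩
    norm_num [fl]

theorem fl_pf (r : ℕ) (hr : r ≤ 5) : (2 ^ 2 ^ r - 1).primeFactors = fl r := by
  obtain ⟨-, h2, -, -⟩ := fl_spec r hr
  rw [← h2, Nat.primeFactors_prod (fl_prime r)]

theorem ex1 (r : ℕ) (hr : r ≤ 5) (a : ℕ) (ha : 0 < a)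
    (hw : a.primeFactors ⊆ (2 ^ 2 ^ r - 1).primeFactors) :
    ((2 ^ 2 ^ r - 1) * a).primeFactors.card = r ∧
      Nat.totient ((2 ^ 2 ^ r - 1) * a) ∣ (2 ^ 2 ^ r - 1) * a + a := by
  obtain ⟨h1, h2, h3, -⟩ := fl_spec r hr
  rw [fl_pf r hr] at hw
  obtain ⟨h4, h5⟩ := ex_gen (fl r) (fl_prime r) a ha hw
  rw [← h2]
  refine ⟨by rw [h4, h1], ?_⟩
  rw [h5]
  have h6 : (∏ p ∈ fl r, p) * a + a = 2 ^ 2 ^ r * a := by
    have h7 : 1 ≤ 2 ^ 2 ^ r := Nat.one_le_two_pow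
    calc (∏ p ∈ fl r, p) * a + a = ((∏ p ∈ fl r, p) + 1) * a := by ring
      _ = 2 ^ 2 ^ r * a := by rw [h2, Nat.sub_add_cancel h7]
  rw [h6]
  exact Nat.mul_dvd_mul_right h3 _

/-- the extremal pairs -/
theorem extremal (n a : ℕ) (hn : 0 < n) (ha : 0 < a) :
    (Nat.totient n ∣ n + a ∧ n = (2 ^ 2 ^ n.primeFactors.card - 1) * a) ↔
      ∃ r ≤ 5, n = (2 ^ 2 ^ r - 1) * a ∧ a.primeFactors ⊆ (2 ^ 2 ^ r - 1).primeFactors := by
  constructor
  · rintro ⟨h, he⟩
    obtain ⟨-, -, c, hca, hc, h3⟩ := pos_all n a hn ha h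
    rcases Nat.lt_or_ge 1 n with hn1 | hn1
    · have h4 := h3 hn1
      have hr1 := card_pos n hn1
      obtain ⟨k, hk⟩ := h
      set r := n.primeFactors.card with hr
      have e1 : 2 ^ 2 ^ r = 2 ^ 2 ^ (r - 1) * 2 ^ 2 ^ (r - 1) := by
        rw [← pow_add]
        congr 1
        obtain ⟨l, hl⟩ := Nat.exists_eq_add_of_le' hr1
        rw [hl, Nat.add_sub_cancel, pow_succ]
        ring
      have hT : 2 ≤ 2 ^ 2 ^ (r - 1) := by
        calc 2 = 2 ^ 1 := by norm_num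
          _ ≤ 2 ^ 2 ^ (r - 1) := Nat.pow_le_pow_right (by norm_num) Nat.one_le_two_pow
      have hac : c = a := by
        have hcle : c ≤ a := Nat.le_of_dvd ha hca
        rw [he, e1] at h4
        generalize 2 ^ 2 ^ (r - 1) = T at h4 hT
        obtain ⟨t, rfl⟩ := Nat.exists_eq_add_of_le' hT
        have e2 : (t + 2) * (t + 2) - 1 = (t + 1) * (t + 3) := by
          have : (t + 2) * (t + 2) = (t + 1) * (t + 3) + 1 := by ring
          omega
        have e3 : t + 2 - 1 = t + 1 := by omega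
        rw [e2, e3, mul_assoc] at h4
        have h5 := Nat.le_of_mul_le_mul_left h4 (Nat.succ_pos t)
        have h6 : (t + 2) * a ≤ (t + 2) * c := by nlinarith
        exact le_antisymm hcle (Nat.le_of_mul_le_mul_left h6 (by omega))
      subst hac
      have hm : ∏ p ∈ n.primeFactors, p = 2 ^ 2 ^ r - 1 := by
        refine Nat.eq_of_mul_eq_mul_left ha ?_
        rw [← hc, mul_comm c]
        exact he
      have hpf : (2 ^ 2 ^ r - 1).primeFactors = n.primeFactors := by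
        rw [← hm, Nat.primeFactors_prod fun p hp => Nat.prime_of_mem_primeFactors hp]
      refine ⟨r, ?_, he, ?_⟩
      · by_contra hr6
        push Not at hr6
        have h641 : 641 ∣ 2 ^ 2 ^ r - 1 := by
          have h7 : 641 ∣ 2 ^ 64 - 1 := by norm_num
          refine h7.trans ?_
          have h8 : 2 ^ r = 64 * 2 ^ (r - 6) := by
            rw [show (64 : ℕ) = 2 ^ 6 by norm_num, ← pow_add]
            congr 1
            omega
          rw [h8, pow_mul]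
          exact Nat.sub_one_dvd_pow_sub_one _ _
        have hp641 : Nat.Prime 641 := by norm_num
        have h9 : 641 ∈ n.primeFactors := by
          rw [← hpf, Nat.mem_primeFactors]
          refine ⟨hp641, h641, fun h0 => ?_⟩
          rw [h0, zero_mul] at he
          omega
        have h10 : 640 ∣ Nat.totient n := by
          have h11 : Nat.totient 641 ∣ Nat.totient n :=
            Nat.totient_dvd_of_dvd (Nat.dvd_of_mem_primeFactors h9)
          rwa [Nat.totient_prime hp641] at h11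
        -- `c * (2 ^ 2 ^ r) = k φ(n)` and `φ(n) = c * ∏ (p - 1)`
        have h12 := Nat.totient_mul_prod_primeFactors n
        rw [hm] at h12
        have hM0 : 0 < 2 ^ 2 ^ r - 1 := Nat.pos_of_ne_zero fun h0 => by
          rw [h0, zero_mul] at he
          omega
        have h13 : Nat.totient n = c * ∏ p ∈ n.primeFactors, (p - 1) := by
          refine Nat.eq_of_mul_eq_mul_right hM0 ?_
          rw [h12]
          calc n * ∏ p ∈ n.primeFactors, (p - 1) =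
              ((2 ^ 2 ^ r - 1) * c) * ∏ p ∈ n.primeFactors, (p - 1) := by rw [← he]
            _ = _ := by ring
        have h14 : n + c = c * 2 ^ 2 ^ r := by
          have h15 : 1 ≤ 2 ^ 2 ^ r := Nat.one_le_two_pow
          conv_lhs => rw [he]
          generalize 2 ^ 2 ^ r = T at h15
          obtain ⟨t, rfl⟩ := Nat.exists_eq_add_of_le' h15
          rw [Nat.add_sub_cancel]
          ring
        rw [h14, h13, mul_assoc] at hk
        have h16 := Nat.eq_of_mul_eq_mul_left ha hk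
        have h17 : 640 ∣ ∏ p ∈ n.primeFactors, (p - 1) :=
          dvd_prod_of_mem (fun p => p - 1) h9
        have h18 : 5 ∣ 2 ^ 2 ^ r := by
          rw [h16]
          exact ((by norm_num : 5 ∣ 640).trans h17).mul_right k
        have h19 := (Nat.Prime.dvd_of_dvd_pow (by norm_num : Nat.Prime 5) h18)
        omega
      · rw [hpf]
        exact Nat.primeFactors_mono ⟨_, hc⟩ hn.ne'
    · have h0 : n = 1 := by omega
      subst h0
      have ha1 : a = 1 := by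
        simp at he
        omega
      subst ha1
      exact ⟨0, by norm_num, by norm_num, by simp⟩
  · rintro ⟨r, hr, h1, h2⟩
    obtain ⟨h3, h4⟩ := ex1 r hr a ha h2
    rw [← h1] at h3 h4
    exact ⟨h4, by rw [h3]; exact h1⟩

theorem ex2 (r : ℕ) (hr : r ≤ 5) (q : ℕ) (hq : q.Prime) (hlt : 2 ^ 2 ^ r < q) :
    ((2 ^ 2 ^ r - 1) * q).primeFactors.card = r + 1 ∧
      Nat.totient ((2 ^ 2 ^ r - 1) * q) ∣ (2 ^ 2 ^ r - 1) * q + (q - 2 ^ 2 ^ r) := by
  obtain ⟨h1, h2, h3, h4⟩ := fl_spec r hr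
  have hqn : q ∉ fl r := fun h => by
    have := h4 q h
    omega
  obtain ⟨h5, h6⟩ := ex_gen (insert q (fl r)) (fun p hp => by
    rcases mem_insert.mp hp with h | h
    · rw [h]; exact hq
    · exact fl_prime r p h) 1 one_pos (by simp)
  rw [prod_insert hqn, mul_one, h2, mul_comm q] at h5 h6
  refine ⟨by rw [h5, card_insert_of_notMem hqn, h1], ?_⟩
  rw [h6, prod_insert hqn, mul_one]
  have h7 : 1 ≤ 2 ^ 2 ^ r := Nat.one_le_two_pow
  have h8 : (2 ^ 2 ^ r - 1) * q + (q - 2 ^ 2 ^ r) = (q - 1) * 2 ^ 2 ^ r := by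
    generalize 2 ^ 2 ^ r = T at h7 hlt
    obtain ⟨t, rfl⟩ := Nat.exists_eq_add_of_le' h7
    obtain ⟨s, rfl⟩ := Nat.exists_eq_add_of_le' hlt.le
    have e1 : s + (t + 1) - 1 = s + t := by omega
    rw [Nat.add_sub_cancel, Nat.add_sub_cancel, e1]
    ring
  rw [h8]
  exact Nat.mul_dvd_mul_left _ h3

/-- the primes `2, 5, 7, 37, 1297` -/
def gl : ℕ → Finset ℕ
  | 0 => {2, 5}
  | 1 => {2, 5, 7}
  | 2 => {2, 5, 7, 37}
  | _ => {2, 5, 7, 37, 1297}

theorem gl_prime (r : ℕ) : ∀ p ∈ gl r, p.Prime := by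
  intro p hp
  have h : p ∈ ({2, 5, 7, 37, 1297} : Finset ℕ) := by
    unfold gl at hp
    split at hp <;> simp at hp ⊢ <;> omega
  simp only [mem_insert, mem_singleton] at h
  rcases h with rfl | rfl | rfl | rfl | rfl <;> norm_num

theorem gl_spec (r : ℕ) (hr : r ≤ 3) : (gl r).card = r + 2 ∧
    ∏ p ∈ gl r, p = (6 ^ 2 ^ r - 1) * 2 ∧ ∏ p ∈ gl r, (p - 1) ∣ 6 ^ 2 ^ r * 2 := by
  have h : r = 0 ∨ r = 1 ∨ r = 2 ∨ r = 3 := by omega
  rcases h with rfl | rfl | rfl | rfl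
  all_goals
    refine ⟨by simp [gl], by simp [gl], ?_⟩
    norm_num [gl]

theorem ex3 (r : ℕ) (hr : r ≤ 3) (i : ℕ) (hi : 1 ≤ i) :
    ((6 ^ 2 ^ r - 1) * 2 ^ i).primeFactors.card = r + 2 ∧
      Nat.totient ((6 ^ 2 ^ r - 1) * 2 ^ i) ∣ (6 ^ 2 ^ r - 1) * 2 ^ i + 2 ^ i := by
  obtain ⟨h1, h2, h3⟩ := gl_spec r hr
  obtain ⟨j, rfl⟩ := Nat.exists_eq_add_of_le' hi
  have h2m : 2 ∈ gl r := by
    have h : r = 0 ∨ r = 1 ∨ r = 2 ∨ r = 3 := by omega
    rcases h with rfl | rfl | rfl | rfl <;> simp [gl]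
  obtain ⟨h4, h5⟩ := ex_gen (gl r) (gl_prime r) (2 ^ j) (by positivity) (by
    rcases Nat.eq_zero_or_pos j with h0 | h0
    · simp [h0]
    · rw [Nat.primeFactors_pow _ h0.ne', Nat.prime_two.primeFactors]
      exact singleton_subset_iff.mpr h2m)
  have e : (6 ^ 2 ^ r - 1) * 2 ^ (j + 1) = (∏ p ∈ gl r, p) * 2 ^ j := by
    rw [h2, pow_succ]
    ring
  rw [e]
  refine ⟨by rw [h4, h1], ?_⟩
  rw [h5]
  have h6 : (∏ p ∈ gl r, p) * 2 ^ j + 2 ^ (j + 1) = 6 ^ 2 ^ r * 2 * 2 ^ j := by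
    have h7 : 1 ≤ 6 ^ 2 ^ r := Nat.one_le_pow _ _ (by norm_num)
    rw [h2]
    generalize 6 ^ 2 ^ r = T at h7
    obtain ⟨t, rfl⟩ := Nat.exists_eq_add_of_le' h7
    rw [Nat.add_sub_cancel, pow_succ]
    ring
  rw [h6]
  exact Nat.mul_dvd_mul_right h3 _

theorem ex4 (p : ℕ) (hp : p.Prime) : (Nat.totient (p ^ 2) : ℤ) ∣ ((p ^ 2 : ℕ) : ℤ) - p := by
  rw [Nat.totient_prime_pow hp (by norm_num)]
  have h1 := hp.one_lt
  refine ⟨1, ?_⟩
  rw [Nat.cast_mul, Nat.cast_sub hp.one_le]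
  push_cast
  ring

end Pool.Agent.SOB
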